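import Pool.Agent.Q61.DP.Stm

/-!
# Project DP (helper61): job DP-48, `S_E4`
-/

set_option autoImplicit false

namespace Pool.Agent.Q79.DP

open Pool.Agent.Q61.DP

/-- JOB E4 -/
theorem e4 : S_E4 := by
  intro u a b h α β hα hab
  have hder : ∀ z, deriv b z = α * Complex.exp (α * z + β) * a z + Complex.exp (α * z + β) * deriv a z := by
    intro z
    have hb : b = fun z => Complex.exp (α * z + β) * a z := funext hab
    have h0 : HasDerivAt (fun z : ℂ => α * z + β) α z := by
      simpa using ((hasDerivAt_id z).const_mul α).add_const β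
    have h1 : HasDerivAt (fun z : ℂ => Complex.exp (α * z + β)) (Complex.exp (α * z + β) * α) z := h0.cexp
    have h2 := (h1.fun_mul (h.da z).hasDerivAt).deriv
    rw [hb, h2]
    ring
  have hw : ∀ z, α * Complex.exp (α * z + β) * (a z) ^ 2 = 1 := by
    intro z
    have h1 := h.wr z
    rw [hder, hab z] at h1
    rw [← h1]
    ring
  have hα0 : 0 < ‖α‖ := norm_pos_iff.2 hα
  have key : ∀ z, u z = Real.log (‖α‖ / Real.cosh ((α * z + β).re)) := by
    intro z
    have h1 := congrArg norm (hw z)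
    rw [norm_mul, norm_mul, norm_pow, Complex.norm_exp, norm_one] at h1
    have h2 := h.nm z
    have h3 : ‖b z‖ = Real.exp ((α * z + β).re) * ‖a z‖ := by
      rw [hab z, norm_mul, Complex.norm_exp]
    rw [h3] at h2
    set E := Real.exp ((α * z + β).re) with hE
    have hE0 : 0 < E := Real.exp_pos _
    have h4 : 2 * (‖α‖ * E) * Real.exp (-(u z)) = 1 + E ^ 2 := by
      have h5 : 2 * (‖α‖ * E) * Real.exp (-(u z)) = (‖α‖ * E) * (2 * Real.exp (-(u z))) := by ring
      rw [h5, ← h2]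
      calc ‖α‖ * E * (‖a z‖ ^ 2 + (E * ‖a z‖) ^ 2) = (‖α‖ * E * ‖a z‖ ^ 2) * (1 + E ^ 2) := by ring
        _ = 1 + E ^ 2 := by rw [h1, one_mul]
    have h6 : Real.exp (u z) = ‖α‖ / Real.cosh ((α * z + β).re) := by
      rw [Real.cosh_eq, Real.exp_neg, ← hE]
      have h7 : Real.exp (u z) * Real.exp (-(u z)) = 1 := by
        rw [← Real.exp_add, add_neg_cancel, Real.exp_zero]
      have h8 : (E + E⁻¹) / 2 = (1 + E ^ 2) / (2 * E) := by
        field_simp
        ring
      rw [h8, ← h4, div_div_eq_mul_div, eq_div_iff (by positivity)]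
      calc Real.exp (u z) * (2 * (‖α‖ * E) * Real.exp (-(u z))) =
            (2 * (‖α‖ * E)) * (Real.exp (u z) * Real.exp (-(u z))) := by ring
        _ = ‖α‖ * (2 * E) := by rw [h7]; ring
    rw [← h6, Real.log_exp]
  refine ⟨(starRingEnd ℂ) α / (‖α‖ : ℂ), fun t => Real.log (‖α‖ / Real.cosh (‖α‖ * t + β.re)), ?_, fun x => ?_⟩
  · rw [norm_div, RCLike.norm_conj, Complex.norm_real, norm_norm, div_self hα0.ne']
  · rw [key x]
    have h1 : ‖α‖ * inner ℝ x ((starRingEnd ℂ) α / (‖α‖ : ℂ)) = (α * x).re := by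
      rw [Complex.inner]
      have h2 : (starRingEnd ℂ) α / (‖α‖ : ℂ) * (starRingEnd ℂ) x = (‖α‖⁻¹ : ℝ) * ((starRingEnd ℂ) (α * x)) := by
        rw [map_mul]
        push_cast
        field_simp
      rw [h2, Complex.re_ofReal_mul, Complex.conj_re, ← mul_assoc, mul_inv_cancel₀ hα0.ne', one_mul]
    simp only [h1, Complex.add_re]

end Pool.Agent.Q79.DP
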